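import Pool.Agent.W757.BL.Defs

/-!
# First variation of the perimeter (part BL-FV)
-/

set_option autoImplicit false

namespace Pool.Agent.W816.BL

open Pool.Agent.W757.BL Filter Topology

lemma sum_shift (n : ℕ) (F : ℕ → ℝ) (hF : ∀ j, F (j + n) = F j) (i : ℕ) :
    ∑ j ∈ Finset.range n, F (j + i) = ∑ j ∈ Finset.range n, F j := by
  induction i with
  | zero => simp
  | succ i ih =>
    have h1 := Finset.sum_range_succ (fun j => F (j + i)) n
    have h2 := Finset.sum_range_succ' (fun j => F (j + i)) n
    have h3 : F (n + i) = F (0 + i) := by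
      have := hF i
      rw [zero_add, add_comm n i]
      exact this
    have h4 : ∑ j ∈ Finset.range n, F (j + (i + 1)) = ∑ j ∈ Finset.range n, F (j + 1 + i) :=
      Finset.sum_congr rfl fun j _ => by congr 1; omega
    rw [h4]
    linarith

lemma fv0 (x y x' y' : ℝ → ℝ) (L : ℝ) (n : ℕ) (m : ℝ)
    (hCF : CF x y x' y' L) (hn : 2 ≤ n) (hm : ∀ c, Pol L n c → SS x y n c ≤ m) (c : ℕ → ℝ)
    (hc : Pol L n c) (hcm : SS x y n c = m) :
    h2 x y x' y' (c 0) (c 1) + h1 x y x' y' (c 1) (c 2) = 0 := by
  have hsm : StrictMono c := strictMono_nat_of_lt_succ hc.mono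
  have hc0 : c n = c 0 + L := by have := hc.per 0; rwa [zero_add] at this
  have hc1 : c (1 + n) = c 1 + L := hc.per 1
  have a1 : c 0 < c 1 := hc.mono 0
  have a2 : c 1 < c 0 + L := by rw [← hc0]; exact hsm (by omega)
  have a3 : c 1 < c 2 := hc.mono 1
  have a4 : c 2 < c 1 + L := by rw [← hc1]; exact hsm (by omega)
  have d1 := hCF.dline (c 0) (c 1) 0 1 a1 a2
  have d2 := hCF.dline (c 1) (c 2) 1 0 a3 a4
  simp only [mul_zero, add_zero, mul_one, zero_add] at d1 d2
  have d3 := d1.add d2
  -- local maximum
  have hper : ∀ j, c (j + 1 + n) - c (j + n) = c (j + 1) - c j := by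
    intro j
    rw [hc.per, hc.per]; ring
  have hD0 : ∀ j, j % n = 0 → c (j + 1) - c j = c 1 - c 0 := by
    intro j hj
    have h := Function.Periodic.map_mod_nat (f := fun k => c (k + 1) - c k) (a := n) (fun k => by
      have := hper k
      simp only
      rw [← this]
      congr 2
      omega) j
    simp only [hj] at h
    exact h.symm
  have hD1 : ∀ j, j % n = 1 → c (j + 1) - c j = c 2 - c 1 := by
    intro j hj
    have h := Function.Periodic.map_mod_nat (f := fun k => c (k + 1) - c k) (a := n) (fun k => by
      have := hper k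
      simp only
      rw [← this]
      congr 2
      omega) j
    simp only [hj] at h
    exact h.symm
  have hloc : IsLocalMax (fun τ : ℝ => hh x y (c 0) (c 1 + τ) + hh x y (c 1 + τ) (c 2)) 0 := by
    have hpos : 0 < min (c 1 - c 0) (c 2 - c 1) := lt_min (by linarith) (by linarith)
    have hnb : ∀ᶠ τ : ℝ in 𝓝 0, |τ| < min (c 1 - c 0) (c 2 - c 1) := by
      have := Metric.ball_mem_nhds (0 : ℝ) hpos
      filter_upwards [this] with τ hτ
      simpa [Real.dist_eq] using hτ
    filter_upwards [hnb] with τ hτ
    have t1 : |τ| < c 1 - c 0 := hτ.trans_le (min_le_left _ _)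
    have t2 : |τ| < c 2 - c 1 := hτ.trans_le (min_le_right _ _)
    rw [abs_lt] at t1 t2
    obtain ⟨e, he⟩ : ∃ e : ℕ → ℝ, e = fun j => c j + (if j % n = 1 then τ else 0) := ⟨_, rfl⟩
    have hemod : ∀ j, (j + 1) % n = 1 → j % n = 0 := by
      intro j hj
      have h1 : (j + 1) % n = (j % n + 1) % n := by rw [Nat.mod_add_mod]
      rw [h1] at hj
      have h2 : j % n < n := Nat.mod_lt _ (by omega)
      rcases Nat.lt_or_ge (j % n + 1) n with h | h
      · rw [Nat.mod_eq_of_lt h] at hj; omega
      · have h3 : j % n + 1 = n := by omega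
        rw [h3, Nat.mod_self] at hj; omega
    have hpol : Pol L n e := by
      refine ⟨fun j => ?_, fun j => ?_⟩
      · rw [he]
        simp only
        have hmj := hc.mono j
        by_cases q1 : j % n = 1
        · have q2 : ¬ (j + 1) % n = 1 := fun h => by have := hemod j h; omega
          rw [if_pos q1, if_neg q2]
          have := hD1 j q1
          linarith [t2.2]
        · rw [if_neg q1]
          split_ifs with q2
          · have := hD0 j (hemod j q2)
            linarith [t1.1]
          · linarith
      · rw [he]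
        simp only [Nat.add_mod_right]
        rw [hc.per]; ring
    have hle := hm e hpol
    rw [← hcm] at hle
    obtain ⟨N, rfl⟩ : ∃ N, n = N + 2 := ⟨n - 2, by omega⟩
    unfold SS at hle
    rw [Finset.sum_range_succ', Finset.sum_range_succ', Finset.sum_range_succ',
      Finset.sum_range_succ'] at hle
    have e0 : e 0 = c 0 := by rw [he]; simp
    have e1 : e 1 = c 1 + τ := by
      rw [he]
      simp only
      rw [Nat.mod_eq_of_lt (by omega), if_pos rfl]
    have e2 : e 2 = c 2 := by
      rw [he]
      simp only
      rw [if_neg, add_zero]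
      intro h
      have := hemod 1 h
      rw [Nat.mod_eq_of_lt (by omega)] at this
      omega
    have er : ∑ k ∈ Finset.range N, hh x y (e (k + 1 + 1)) (e (k + 1 + 1 + 1)) =
        ∑ k ∈ Finset.range N, hh x y (c (k + 1 + 1)) (c (k + 1 + 1 + 1)) := by
      apply Finset.sum_congr rfl
      intro k hk
      have hk' := Finset.mem_range.1 hk
      have q1 : e (k + 1 + 1) = c (k + 1 + 1) := by
        rw [he]
        simp only
        rw [if_neg, add_zero]
        rw [Nat.mod_eq_of_lt (by omega)]
        omega
      have q2 : e (k + 1 + 1 + 1) = c (k + 1 + 1 + 1) := by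
        rw [he]
        simp only
        rw [if_neg, add_zero]
        intro h
        have := hemod _ h
        rw [Nat.mod_eq_of_lt (by omega)] at this
        omega
      rw [q1, q2]
    rw [er] at hle
    simp only [zero_add, Nat.reduceAdd] at hle
    rw [e0, e1, e2] at hle
    simp only [add_zero]
    linarith
  have := hloc.hasDerivAt_eq_zero d3
  exact this

/-- **BL-FV** -/
theorem t_FV : S_FV := by
  intro x y x' y' L n m _ hCF hn hm c hc hcm i
  have hpol : Pol L n (fun j => c (j + i)) := by
    refine ⟨fun j => ?_, fun j => ?_⟩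
    · have := hc.mono (j + i)
      rw [show j + 1 + i = j + i + 1 by omega]
      exact this
    · have := hc.per (j + i)
      rw [show j + n + i = j + i + n by omega]
      exact this
  have hss : SS x y n (fun j => c (j + i)) = m := by
    rw [← hcm]
    unfold SS
    have := sum_shift n (fun j => hh x y (c j) (c (j + 1))) (fun j => by
      rw [show j + n + 1 = j + 1 + n by omega, hc.per, hc.per, hCF.per]) i
    rw [← this]
    apply Finset.sum_congr rfl
    intro j _
    simp only
    rw [show j + 1 + i = j + i + 1 by omega]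
  have h := fv0 x y x' y' L n m hCF hn hm _ hpol hss
  simp only [zero_add] at h
  rw [show 1 + i = i + 1 by omega, show 2 + i = i + 2 by omega] at h
  exact h

end Pool.Agent.W816.BL
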