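import Pool.Agent.W757.BL.Defs

/-!
# The lemma of Perron and Frobenius for the second variation (part BL-PF)
-/

set_option autoImplicit false

namespace Pool.Agent.W816.BL

open Pool.Agent.W757.BL

lemma lin_zero (a b : ℝ) (h : ∀ ε : ℝ, ε * a + ε ^ 2 * b ≤ 0) : a = 0 := by
  obtain ⟨t, ht⟩ : ∃ t : ℝ, t = 1 / (|b| + 1) := ⟨_, rfl⟩
  have hb : 0 ≤ |b| := abs_nonneg b
  have ht0 : 0 < t := by rw [ht]; positivity
  have ht1 : t * (|b| + 1) = 1 := by rw [ht]; field_simp
  have h1 := h (a * t)
  have h2 : 0 < 1 + t * b := by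
    have h3 : -|b| ≤ b := neg_abs_le b
    nlinarith
  have h4 : a ^ 2 * (t * (1 + t * b)) ≤ 0 := by nlinarith
  have h5 : 0 < t * (1 + t * b) := mul_pos ht0 h2
  have h6 : a ^ 2 ≤ 0 := by
    by_contra hc
    push Not at hc
    have := mul_pos hc h5
    linarith
  nlinarith [sq_nonneg a]

/-- **BL-PF** -/
theorem t_PF : S_PF := by
  intro n A B C hn hB hQ w hw hw0 hQw
  have hn0 : 0 < n := by omega
  obtain ⟨v, hv⟩ : ∃ v : ℕ → ℝ, v = fun i => |w i| := ⟨_, rfl⟩
  have hvn : ∀ i, 0 ≤ v i := fun i => by rw [hv]; exact abs_nonneg _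
  have hvp : ∀ i, v (i + n) = v i := fun i => by rw [hv]; simp only [hw i]
  have hv0 : v 0 = 0 := by rw [hv]; simp only [hw0, abs_zero]
  have hQv : 0 ≤ ∑ i ∈ Finset.range n, (A i * v i ^ 2 + 2 * B i * v i * v (i + 1) +
      C i * v (i + 1) ^ 2) := by
    rw [← hQw]
    apply Finset.sum_le_sum
    intro i hi
    have hBi := hB i (Finset.mem_range.1 hi)
    have e1 : v i ^ 2 = w i ^ 2 := by rw [hv]; exact sq_abs _
    have e2 : v (i + 1) ^ 2 = w (i + 1) ^ 2 := by rw [hv]; exact sq_abs _
    have e3 : w i * w (i + 1) ≤ v i * v (i + 1) := by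
      rw [hv]
      simp only
      rw [← abs_mul]
      exact le_abs_self _
    rw [e1, e2]
    nlinarith
  -- the step
  have step : ∀ i, v i = 0 → v (i + 1) = 0 := by
    intro i hi
    obtain ⟨d, hd⟩ : ∃ d : ℕ → ℝ, d = fun k => if k % n = i % n then 1 else 0 := ⟨_, rfl⟩
    have hdp : ∀ k, d (k + n) = d k := fun k => by rw [hd]; simp
    have hdn : ∀ k, 0 ≤ d k := fun k => by rw [hd]; simp only; split_ifs <;> norm_num
    have hvd : ∀ k, v k * d k = 0 := by
      intro k
      rw [hd]
      simp only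
      split_ifs with h
      · have h1 : v (k % n) = v k := Function.Periodic.map_mod_nat hvp k
        have h2 : v (i % n) = v i := Function.Periodic.map_mod_nat hvp i
        rw [← h1, h, h2, hi, zero_mul]
      · rw [mul_zero]
    have hlin : ∑ k ∈ Finset.range n, (2 * B k * (v k * d (k + 1) + v (k + 1) * d k)) = 0 := by
      apply lin_zero _ (∑ k ∈ Finset.range n, (A k * d k ^ 2 + 2 * B k * d k * d (k + 1) +
        C k * d (k + 1) ^ 2))
      intro ε
      have h3 := hQ (fun k => v k + ε * d k) (fun k => by simp only [hvp k, hdp k])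
      have e : ∀ k ∈ Finset.range n, (A k * (v k + ε * d k) ^ 2 +
          2 * B k * (v k + ε * d k) * (v (k + 1) + ε * d (k + 1)) +
          C k * (v (k + 1) + ε * d (k + 1)) ^ 2) =
          (A k * v k ^ 2 + 2 * B k * v k * v (k + 1) + C k * v (k + 1) ^ 2) +
          (ε * (2 * B k * (v k * d (k + 1) + v (k + 1) * d k)) +
          ε ^ 2 * (A k * d k ^ 2 + 2 * B k * d k * d (k + 1) + C k * d (k + 1) ^ 2)) := by
        intro k _
        linear_combination (2 * A k * ε) * hvd k + (2 * C k * ε) * hvd (k + 1)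
      have h3' : ∑ k ∈ Finset.range n, (A k * (v k + ε * d k) ^ 2 +
          2 * B k * (v k + ε * d k) * (v (k + 1) + ε * d (k + 1)) +
          C k * (v (k + 1) + ε * d (k + 1)) ^ 2) =
          (∑ k ∈ Finset.range n, (A k * v k ^ 2 + 2 * B k * v k * v (k + 1) +
            C k * v (k + 1) ^ 2)) +
          (ε * (∑ k ∈ Finset.range n, (2 * B k * (v k * d (k + 1) + v (k + 1) * d k))) +
          ε ^ 2 * (∑ k ∈ Finset.range n, (A k * d k ^ 2 + 2 * B k * d k * d (k + 1) +
            C k * d (k + 1) ^ 2))) := by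
        rw [Finset.sum_congr rfl e, Finset.mul_sum, Finset.mul_sum, ← Finset.sum_add_distrib,
          ← Finset.sum_add_distrib]
      linarith
    have hmem : i % n ∈ Finset.range n := Finset.mem_range.2 (Nat.mod_lt _ hn0)
    have h4 := (Finset.sum_eq_zero_iff_of_nonneg (fun k hk => by
      have hBk := hB k (Finset.mem_range.1 hk)
      have q1 := mul_nonneg (hvn k) (hdn (k + 1))
      have q2 := mul_nonneg (hvn (k + 1)) (hdn k)
      positivity)).1 hlin (i % n) hmem
    have hBi := hB (i % n) (Nat.mod_lt _ hn0)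
    have q1 := mul_nonneg (hvn (i % n)) (hdn (i % n + 1))
    have e5 : d (i % n) = 1 := by rw [hd]; simp
    rw [e5, mul_one] at h4
    have q2 := hvn (i % n + 1)
    have h5 : v (i % n) * d (i % n + 1) + v (i % n + 1) = 0 := by
      rcases mul_eq_zero.1 h4 with h | h
      · linarith
      · exact h
    have h6 : v (i % n + 1) = 0 := by linarith
    have h7 : v (i % n + 1) = v (i + 1) :=
      Function.Periodic.map_mod_nat (f := fun k => v (k + 1)) (a := n) (fun k => by
        have := hvp (k + 1)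
        simp only
        rw [← this]
        congr 1
        omega) i
    rw [← h7, h6]
  have hall : ∀ i, v i = 0 := by
    intro i
    induction i with
    | zero => exact hv0
    | succ i ih => exact step i ih
  intro i
  have := hall i
  rw [hv] at this
  exact abs_eq_zero.1 this

end Pool.Agent.W816.BL
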